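import Pool.Agent.H466.HP.Stm3
import Pool.Agent.H354.HP.Z1

/-!
# HP-REP: the real part of `P` controls the number of the zeros nearby
-/

set_option autoImplicit false

open Complex MeasureTheory Filter Topology Set
open scoped ComplexConjugate

namespace Pool.Agent.H52.HP

open Pool.Agent.NH13 Pool.Agent.NH13.UV
open Pool.Agent.H862.VK
open Pool.Agent.H466.HP
open Pool.Agent.H354.HP (pfr mu_pos)

/-- the sum of the Poisson kernels -/
theorem pos_sum' {x t : ℝ} (hz : Yz ⟨x, t⟩ ≠ 0) :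
    HasSum (fun a : Zr => mu a * ((x - (a : ℂ).re) / ((x - (a : ℂ).re) ^ 2 + (t - (a : ℂ).im) ^ 2) +
      (x + (a : ℂ).re) / ((x + (a : ℂ).re) ^ 2 + (t - (a : ℂ).im) ^ 2)))
      (2 * (P ⟨x, t⟩).re) := by
  have e : -(conj (⟨x, t⟩ : ℂ)) = ⟨-x, t⟩ := by
    apply Complex.ext <;> simp
  have hw : Yz ⟨-x, t⟩ ≠ 0 := by
    rw [← e, Yz_sym]
    exact (map_ne_zero_iff _ (starRingEnd ℂ).injective).2 hz
  have h := pfr (z := ⟨x, t⟩) (w := ⟨-x, t⟩) hz hw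
  have e1 : P ⟨-x, t⟩ = -(conj (P ⟨x, t⟩)) := by
    have h2 := yh.logDeriv_rf Yz_diff Yz_sym (⟨x, t⟩ : ℂ)
    rw [e] at h2
    exact h2
  rw [e1] at h
  have h3 := Complex.reCLM.hasSum h
  have e2 : Complex.reCLM (P ⟨x, t⟩ - -(conj (P ⟨x, t⟩))) = 2 * (P ⟨x, t⟩).re := by
    rw [Complex.reCLM_apply, Complex.sub_re, Complex.neg_re, Complex.conj_re]
    ring
  rw [e2] at h3
  refine h3.congr_fun fun a => ?_
  rw [Complex.reCLM_apply, Complex.re_ofReal_mul, Complex.sub_re]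
  congr 1
  have hs : ∀ x : ℝ, (1 / ((⟨x, t⟩ : ℂ) - (a : ℂ))).re =
      (x - (a : ℂ).re) / ((x - (a : ℂ).re) ^ 2 + (t - (a : ℂ).im) ^ 2) := by
    intro x
    rw [one_div, Complex.inv_re, Complex.normSq_apply, Complex.sub_re, Complex.sub_im]
    simp only
    congr 1
    ring
  rw [hs, hs]
  have e3 : (-x - (a : ℂ).re) ^ 2 = (x + (a : ℂ).re) ^ 2 := by ring
  rw [e3]
  ring

theorem kernel_ge' {x β η : ℝ} (hx : 0 < x) (h : 16 * β ^ 2 ≤ x ^ 2 + η ^ 2) :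
    x / 5 * (1 / (x + |η|) ^ 2) ≤
      (x - β) / ((x - β) ^ 2 + η ^ 2) + (x + β) / ((x + β) ^ 2 + η ^ 2) := by
  have hx2 : 0 < x ^ 2 := by positivity
  have hη2 : 0 ≤ η ^ 2 := sq_nonneg η
  have h1 : 0 < (x - β) ^ 2 + η ^ 2 := by nlinarith [sq_nonneg (x - 2 * β)]
  have h2 : 0 < (x + β) ^ 2 + η ^ 2 := by nlinarith [sq_nonneg (x + 2 * β)]
  have h1' : (x - β) ^ 2 + η ^ 2 ≤ 3 * (x ^ 2 + η ^ 2) := by nlinarith [sq_nonneg (x + β)]
  have h2' : (x + β) ^ 2 + η ^ 2 ≤ 3 * (x ^ 2 + η ^ 2) := by nlinarith [sq_nonneg (x - β)]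
  have hs : 0 < x ^ 2 + η ^ 2 := by positivity
  have hb : x ^ 2 + η ^ 2 ≤ (x + |η|) ^ 2 := by
    have := abs_nonneg η
    nlinarith [sq_abs η, mul_nonneg hx.le this]
  have hp : ((x - β) ^ 2 + η ^ 2) * ((x + β) ^ 2 + η ^ 2) ≤ 9 * (x ^ 2 + η ^ 2) ^ 2 := by
    calc ((x - β) ^ 2 + η ^ 2) * ((x + β) ^ 2 + η ^ 2)
        ≤ (3 * (x ^ 2 + η ^ 2)) * (3 * (x ^ 2 + η ^ 2)) := mul_le_mul h1' h2' h2.le (by positivity)
      _ = _ := by ring
  rw [div_add_div _ _ h1.ne' h2.ne']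
  have e : (x - β) * ((x + β) ^ 2 + η ^ 2) + ((x - β) ^ 2 + η ^ 2) * (x + β) =
      2 * x * (x ^ 2 + η ^ 2 - β ^ 2) := by ring
  rw [e]
  have h3 : 2 * x * (15 / 16 * (x ^ 2 + η ^ 2)) ≤ 2 * x * (x ^ 2 + η ^ 2 - β ^ 2) := by
    apply mul_le_mul_of_nonneg_left _ (by positivity)
    linarith
  have h4 : x / 5 * (1 / (x + |η|) ^ 2) ≤ x / 5 * (1 / (x ^ 2 + η ^ 2)) := by
    apply mul_le_mul_of_nonneg_left _ (by positivity)
    exact one_div_le_one_div_of_le hs hb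
  refine h4.trans ?_
  rw [le_div_iff₀ (mul_pos h1 h2)]
  have h5 : x / 5 * (1 / (x ^ 2 + η ^ 2)) * (((x - β) ^ 2 + η ^ 2) * ((x + β) ^ 2 + η ^ 2)) ≤
      x / 5 * (1 / (x ^ 2 + η ^ 2)) * (9 * (x ^ 2 + η ^ 2) ^ 2) :=
    mul_le_mul_of_nonneg_left hp (by positivity)
  refine h5.trans (le_trans ?_ h3)
  have e2 : x / 5 * (1 / (x ^ 2 + η ^ 2)) * (9 * (x ^ 2 + η ^ 2) ^ 2) =
      9 / 5 * x * (x ^ 2 + η ^ 2) := by
    field_simp
  rw [e2]
  nlinarith [mul_pos hx hs]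

theorem rep : S_REP := by
  refine ⟨10, by norm_num, fun M t y0 x hM hy0 hyx _ hCF => ?_⟩
  have hx : 0 < x := hy0.trans_le hyx
  have hβ : ∀ b : ℂ, Yz b = 0 → 16 * b.re ^ 2 ≤ x ^ 2 + (b.im - t) ^ 2 := by
    intro b hb
    rcases hCF b hb with h | h
    · have h1 : |b.re| ≤ x / 4 := h.trans (by linarith)
      have h2 : b.re ^ 2 ≤ (x / 4) ^ 2 := sq_le_sq.2 (by rwa [abs_of_pos (by positivity : 0 < x / 4)])
      nlinarith [sq_nonneg (b.im - t)]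
    · have h1 : |b.re| ≤ |b.im - t| / 8 := by
        refine h.trans ?_
        apply div_le_div_of_nonneg_left (abs_nonneg _) (by norm_num)
        linarith
      have h2 : b.re ^ 2 ≤ ((b.im - t) / 8) ^ 2 := by
        apply sq_le_sq.2
        rw [abs_div, abs_of_pos (by norm_num : (0 : ℝ) < 8)]
        exact h1
      nlinarith [sq_nonneg (b.im - t), sq_nonneg x]
  have ez : (x : ℂ) + I * t = ⟨x, t⟩ := by
    apply Complex.ext <;> simp
  have hz : Yz ⟨x, t⟩ ≠ 0 := by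
    intro h0
    have h1 := hβ _ h0
    simp only [sub_self] at h1
    nlinarith
  have hs := pos_sum' hz
  have hle : ∀ a : Zr, mu a / (x + |(a : ℂ).im - t|) ^ 2 ≤ 5 / x *
      (mu a * ((x - (a : ℂ).re) / ((x - (a : ℂ).re) ^ 2 + (t - (a : ℂ).im) ^ 2) +
      (x + (a : ℂ).re) / ((x + (a : ℂ).re) ^ 2 + (t - (a : ℂ).im) ^ 2))) := by
    intro a
    have h0 : (t - (a : ℂ).im) ^ 2 = ((a : ℂ).im - t) ^ 2 := by ring
    rw [h0]
    have h1 := kernel_ge' (η := (a : ℂ).im - t) hx (hβ a a.2)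
    have h2 := mul_le_mul_of_nonneg_left h1 (mu_pos a).le
    have h3 : mu a / (x + |(a : ℂ).im - t|) ^ 2 =
        5 / x * (mu a * (x / 5 * (1 / (x + |(a : ℂ).im - t|) ^ 2))) := by
      have h4 : 0 < x + |(a : ℂ).im - t| := by positivity
      field_simp
    rw [h3]
    exact mul_le_mul_of_nonneg_left h2 (by positivity)
  have hnn : ∀ a : Zr, 0 ≤ mu a / (x + |(a : ℂ).im - t|) ^ 2 := fun a =>
    div_nonneg (mu_pos a).le (by positivity)
  have hsum := Summable.of_nonneg_of_le hnn hle (hs.summable.mul_left (5 / x))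
  refine ⟨hsum, ?_⟩
  have h1 := hsum.tsum_le_tsum hle (hs.summable.mul_left (5 / x))
  rw [tsum_mul_left, hs.tsum_eq] at h1
  rw [ez]
  refine h1.trans (le_of_eq ?_)
  ring

end Pool.Agent.H52.HP
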